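import Mathlib

/-!
# Two constants on a disc and three circles

Bounds for a holomorphic function on a disc which is small on a diameter, or on a smaller disc, from
the three lines theorem.
-/

set_option autoImplicit false

namespace Pool.Agent.IsoA

open Complex

/-- The strip is mapped into the disc by the tangent. -/
theorem normSq_sin_le {z : ℂ} (h0 : 0 ≤ z.re) (h1 : z.re ≤ Real.pi / 4) :
    normSq (sin z) ≤ normSq (cos z) := by
  have hs : normSq (sin z) = Real.sin z.re ^ 2 + Real.sinh z.im ^ 2 := by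
    rw [normSq_apply]
    have e1 : (sin z).re = Real.sin z.re * Real.cosh z.im := by
      rw [sin_eq]
      simp [← ofReal_sin, ← ofReal_cos, ← ofReal_sinh, ← ofReal_cosh]
    have e2 : (sin z).im = Real.cos z.re * Real.sinh z.im := by
      rw [sin_eq]
      simp [← ofReal_sin, ← ofReal_cos, ← ofReal_sinh, ← ofReal_cosh]
    rw [e1, e2]
    have h3 := Real.cosh_sq z.im
    have h4 := Real.sin_sq_add_cos_sq z.re
    have h5 : Real.cos z.re ^ 2 = 1 - Real.sin z.re ^ 2 := by linarith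
    calc _ = Real.sin z.re ^ 2 * Real.cosh z.im ^ 2 + Real.cos z.re ^ 2 * Real.sinh z.im ^ 2 := by
          ring
      _ = _ := by rw [h3, h5]; ring
  have hc : normSq (cos z) = Real.cos z.re ^ 2 + Real.sinh z.im ^ 2 := by
    rw [normSq_apply]
    have e1 : (cos z).re = Real.cos z.re * Real.cosh z.im := by
      rw [cos_eq]
      simp [← ofReal_sin, ← ofReal_cos, ← ofReal_sinh, ← ofReal_cosh]
    have e2 : (cos z).im = -(Real.sin z.re * Real.sinh z.im) := by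
      rw [cos_eq]
      simp [← ofReal_sin, ← ofReal_cos, ← ofReal_sinh, ← ofReal_cosh]
    rw [e1, e2]
    have h3 := Real.cosh_sq z.im
    have h4 := Real.sin_sq_add_cos_sq z.re
    have h5 : Real.sin z.re ^ 2 = 1 - Real.cos z.re ^ 2 := by linarith
    calc _ = Real.cos z.re ^ 2 * Real.cosh z.im ^ 2 + Real.sin z.re ^ 2 * Real.sinh z.im ^ 2 := by
          ring
      _ = _ := by rw [h3, h5]; ring
  rw [hs, hc]
  have h2 : 0 ≤ Real.cos (2 * z.re) := Real.cos_nonneg_of_mem_Icc ⟨by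
    have := Real.pi_pos
    linarith, by linarith⟩
  rw [Real.cos_two_mul'] at h2
  linarith

theorem cos_ne {z : ℂ} (h0 : 0 ≤ z.re) (h1 : z.re ≤ Real.pi / 4) : cos z ≠ 0 := by
  intro h
  have h2 := normSq_sin_le h0 h1
  rw [h, map_zero] at h2
  have h3 : sin z = 0 := normSq_eq_zero.1 (le_antisymm h2 (normSq_nonneg _))
  have h4 := sin_sq_add_cos_sq z
  rw [h, h3] at h4
  norm_num at h4

theorem norm_tan_le {z : ℂ} (h0 : 0 ≤ z.re) (h1 : z.re ≤ Real.pi / 4) : ‖tan z‖ ≤ 1 := by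
  have h2 := normSq_sin_le h0 h1
  have h3 := cos_ne h0 h1
  rw [tan_eq_sin_div_cos, norm_div, div_le_one (norm_pos_iff.2 h3)]
  rw [normSq_eq_norm_sq, normSq_eq_norm_sq] at h2
  exact le_of_sq_le_sq h2 (norm_nonneg _)

/-- Interpolation of the bounds. -/
theorem interp_le {ε M t : ℝ} (hε : 0 < ε) (hM : ε ≤ M) (h1 : t ≤ 1 / 2) :
    ε ^ (1 - t) * M ^ t ≤ √(ε * M) := by
  have hM0 : 0 < M := hε.trans_le hM
  have h2 : ε ^ (1 - t) * M ^ t = ε * (M / ε) ^ t := by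
    rw [Real.rpow_sub hε, Real.rpow_one, Real.div_rpow hM0.le hε.le]
    field_simp
  have h3 : √(ε * M) = ε * (M / ε) ^ (1 / 2 : ℝ) := by
    rw [← Real.sqrt_eq_rpow, Real.sqrt_div hM0.le, Real.sqrt_mul hε.le]
    have := Real.mul_self_sqrt hε.le
    have h4 : √ε ≠ 0 := (Real.sqrt_pos.2 hε).ne'
    field_simp
    rw [pow_two, this]
  rw [h2, h3]
  refine mul_le_mul_of_nonneg_left (Real.rpow_le_rpow_of_exponent_le ?_ h1) hε.le
  rwa [one_le_div hε]

/-- The angle of `(1 + u) / (1 - u)`. -/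
theorem arg_cayley {u : ℂ} (hu : ‖u‖ ≤ 1 / 4) (him : 0 ≤ u.im) :
    0 ≤ arg ((1 + u) / (1 - u)) ∧ arg ((1 + u) / (1 - u)) ≤ Real.pi / 4 := by
  have h1 : (1 : ℂ) - u ≠ 0 := by
    intro h
    have : u = 1 := (sub_eq_zero.1 h).symm
    rw [this, norm_one] at hu
    norm_num at hu
  have hN : 0 < normSq (1 - u) := normSq_pos.2 h1
  have hsq : u.re ^ 2 + u.im ^ 2 ≤ 1 / 16 := by
    have h2 : normSq u = ‖u‖ ^ 2 := normSq_eq_norm_sq u
    rw [normSq_apply] at h2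
    have h3 : ‖u‖ ^ 2 ≤ (1 / 4) ^ 2 := pow_le_pow_left₀ (norm_nonneg _) hu 2
    nlinarith
  have hre : ((1 + u) / (1 - u)).re = (1 - (u.re ^ 2 + u.im ^ 2)) / normSq (1 - u) := by
    rw [div_re]
    simp only [add_re, one_re, sub_re, add_im, one_im, sub_im]
    ring
  have him' : ((1 + u) / (1 - u)).im = 2 * u.im / normSq (1 - u) := by
    rw [div_im]
    simp only [add_re, one_re, sub_re, add_im, one_im, sub_im]
    ring
  have hre0 : 0 < ((1 + u) / (1 - u)).re := by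
    rw [hre]
    exact div_pos (by linarith) hN
  have hle : ((1 + u) / (1 - u)).im ≤ ((1 + u) / (1 - u)).re := by
    rw [hre, him']
    refine div_le_div_of_nonneg_right ?_ hN.le
    nlinarith [sq_nonneg u.re, sq_nonneg (u.im - 1 / 4)]
  refine ⟨arg_nonneg_iff.2 (by rw [him']; positivity), ?_⟩
  by_contra h
  push Not at h
  have h2 : |arg ((1 + u) / (1 - u))| < Real.pi / 2 := abs_arg_lt_pi_div_two_iff.2 (Or.inl hre0)
  have h3 : Real.tan (Real.pi / 4) < Real.tan (arg ((1 + u) / (1 - u))) :=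
    Real.strictMonoOn_tan ⟨by linarith [Real.pi_pos], by linarith [Real.pi_pos]⟩
      (abs_lt.1 h2) h
  rw [Real.tan_pi_div_four, tan_arg, lt_div_iff₀ hre0] at h3
  linarith

/-- A holomorphic function on a disc which is small on the diameter. -/
theorem half_disc {G : ℂ → ℂ} {c : ℂ} {R ε M : ℝ} (hR : 0 < R) (hε : 0 < ε) (hεM : ε ≤ M)
    (hG : ∀ z, ‖z - c‖ ≤ R → DifferentiableAt ℂ G z) (hM : ∀ z, ‖z - c‖ ≤ R → ‖G z‖ ≤ M)
    (hr : ∀ t : ℝ, |t| ≤ R → ‖G (c + t)‖ ≤ ε) {z : ℂ} (hz : ‖z - c‖ ≤ R / 4)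
    (him : 0 ≤ (z - c).im) : ‖G z‖ ≤ √(ε * M) := by
  obtain ⟨u, hu⟩ : ∃ u, u = (z - c) / R := ⟨_, rfl⟩
  have hRc : (R : ℂ) ≠ 0 := ofReal_ne_zero.2 hR.ne'
  have hun : ‖u‖ ≤ 1 / 4 := by
    rw [hu, norm_div, norm_real, Real.norm_of_nonneg hR.le, div_le_iff₀ hR]
    linarith
  have hui : 0 ≤ u.im := by
    rw [hu, div_ofReal_im]
    exact div_nonneg him hR.le
  have hzu : z = c + R * u := by
    rw [hu]
    field_simp
    ring
  obtain ⟨a0, a1⟩ := arg_cayley hun hui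
  obtain ⟨a, ha⟩ : ∃ a, a = arctan (-I * u) := ⟨_, rfl⟩
  have har : a.re = arg ((1 + u) / (1 - u)) / 2 := by
    rw [ha]
    unfold arctan
    have e1 : 1 + -I * u * I = 1 + u := by
      linear_combination (-u) * I_mul_I
    have e2 : 1 - -I * u * I = 1 - u := by
      linear_combination u * I_mul_I
    rw [e1, e2]
    have e3 : (-I / 2 * log ((1 + u) / (1 - u))).re = (log ((1 + u) / (1 - u))).im / 2 := by
      rw [mul_re]
      simp
      ring
    rw [e3, log_im]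
  have htan : I * tan a = u := by
    rw [ha, tan_arctan]
    · linear_combination (-u) * I_mul_I
    · intro h
      have h1 : ‖-I * u‖ = 1 := by rw [h, norm_I]
      rw [norm_mul, norm_neg, norm_I, one_mul] at h1
      linarith
    · intro h
      have h1 : ‖-I * u‖ = 1 := by rw [h, norm_neg, norm_I]
      rw [norm_mul, norm_neg, norm_I, one_mul] at h1
      linarith
  -- the function on the strip
  obtain ⟨m, hm⟩ : ∃ m : ℂ → ℂ, m = fun ξ => c + R * (I * tan ((Real.pi / 4 : ℝ) * ξ)) := ⟨_, rfl⟩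
  have hpi := Real.pi_pos
  have hre : ∀ ξ : ℂ, (((Real.pi / 4 : ℝ) : ℂ) * ξ).re = Real.pi / 4 * ξ.re := by
    intro ξ
    rw [re_ofReal_mul]
  have hmn : ∀ ξ : ℂ, 0 ≤ ξ.re → ξ.re ≤ 1 → ‖m ξ - c‖ ≤ R := by
    intro ξ h0 h1
    have h2 : ‖tan ((Real.pi / 4 : ℝ) * ξ)‖ ≤ 1 := norm_tan_le (by rw [hre]; positivity)
      (by rw [hre]; nlinarith)
    rw [hm]
    simp only [add_sub_cancel_left]
    rw [norm_mul, norm_mul, norm_I, one_mul, norm_real, Real.norm_of_nonneg hR.le]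
    nlinarith
  have hmd : ∀ ξ : ℂ, 0 ≤ ξ.re → ξ.re ≤ 1 → DifferentiableAt ℂ m ξ := by
    intro ξ h0 h1
    have h2 : cos ((Real.pi / 4 : ℝ) * ξ) ≠ 0 := cos_ne (by rw [hre]; positivity)
      (by rw [hre]; nlinarith)
    rw [hm]
    have h3 : DifferentiableAt ℂ (fun ξ : ℂ => ((Real.pi / 4 : ℝ) : ℂ) * ξ) ξ :=
      differentiableAt_id.const_mul _
    have h4 : DifferentiableAt ℂ (fun ξ : ℂ => tan (((Real.pi / 4 : ℝ) : ℂ) * ξ)) ξ :=
      (differentiableAt_tan.2 h2).comp ξ h3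
    exact ((h4.const_mul I).const_mul (R : ℂ)).const_add c
  have hfd : ∀ ξ : ℂ, 0 ≤ ξ.re → ξ.re ≤ 1 → DifferentiableAt ℂ (G ∘ m) ξ := fun ξ h0 h1 =>
    (hG _ (hmn ξ h0 h1)).comp ξ (hmd ξ h0 h1)
  have hcl : closure (HadamardThreeLines.verticalStrip 0 1) ⊆ {ξ : ℂ | 0 ≤ ξ.re ∧ ξ.re ≤ 1} := by
    refine closure_minimal (fun ξ hξ => ⟨hξ.1.le, hξ.2.le⟩) ?_
    exact (isClosed_le continuous_const continuous_re).inter
      (isClosed_le continuous_re continuous_const)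
  have hdc : DiffContOnCl ℂ (G ∘ m) (HadamardThreeLines.verticalStrip 0 1) :=
    ⟨fun ξ hξ => (hfd ξ hξ.1.le hξ.2.le).differentiableWithinAt,
      fun ξ hξ => (hfd ξ (hcl hξ).1 (hcl hξ).2).continuousAt.continuousWithinAt⟩
  obtain ⟨ξ, hξ⟩ : ∃ ξ : ℂ, ξ = ((4 / Real.pi : ℝ) : ℂ) * a := ⟨_, rfl⟩
  have hξr : ξ.re = 4 / Real.pi * a.re := by rw [hξ, re_ofReal_mul]
  have hξ0 : 0 ≤ ξ.re := by
    rw [hξr, har]
    positivity
  have hξ1 : ξ.re ≤ 1 / 2 := by
    rw [hξr, har]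
    have : 4 / Real.pi * (arg ((1 + u) / (1 - u)) / 2) ≤ 4 / Real.pi * ((Real.pi / 4) / 2) :=
      mul_le_mul_of_nonneg_left (by linarith) (by positivity)
    refine this.trans (le_of_eq ?_)
    field_simp
  have hmξ : m ξ = z := by
    rw [hm, hzu]
    simp only
    have e1 : ((Real.pi / 4 : ℝ) : ℂ) * ξ = a := by
      rw [hξ, ← mul_assoc, ← ofReal_mul]
      have : Real.pi / 4 * (4 / Real.pi) = 1 := by field_simp
      rw [this, ofReal_one, one_mul]
    rw [e1, htan]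
  have h1 := HadamardThreeLines.norm_le_interp_of_mem_verticalClosedStrip₀₁' (G ∘ m) (z := ξ)
    (a := ε) (b := M) ⟨hξ0, by linarith⟩ hdc ⟨M, by
      rintro _ ⟨ξ, hξ, rfl⟩
      exact hM _ (hmn ξ hξ.1 hξ.2)⟩ (fun ξ hξ => ?_) (fun ξ hξ => ?_)
  · have h2 : (G ∘ m) ξ = G z := by rw [Function.comp, hmξ]
    rw [h2] at h1
    exact h1.trans (interp_le hε hεM hξ1)
  · -- the imaginary axis
    have hξ' : ξ.re = 0 := hξ
    obtain ⟨y, hy⟩ : ∃ y : ℝ, ξ = y * I := ⟨ξ.im, by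
      apply Complex.ext
      · simp [hξ']
      · simp⟩
    have e1 : ((Real.pi / 4 : ℝ) : ℂ) * ξ = ((Real.pi / 4 * y : ℝ) : ℂ) * I := by
      rw [hy]
      push_cast
      ring
    have e2 : m ξ = c + ((-(R * Real.tanh (Real.pi / 4 * y)) : ℝ) : ℂ) := by
      rw [hm]
      simp only
      rw [e1, tan_mul_I, ← ofReal_tanh]
      push_cast
      linear_combination (R * tanh (Real.pi / 4 * y)) * I_mul_I
    have h3 : (G ∘ m) ξ = G (c + ((-(R * Real.tanh (Real.pi / 4 * y)) : ℝ) : ℂ)) := by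
      rw [Function.comp, e2]
    rw [h3]
    refine hr _ ?_
    have h4 := hmn ξ (le_of_eq hξ'.symm) (by rw [hξ']; norm_num)
    rw [e2, add_sub_cancel_left, norm_real] at h4
    exact h4
  · have hξ' : ξ.re = 1 := hξ
    exact hM _ (hmn ξ (by rw [hξ']; norm_num) (le_of_eq hξ'))

/-- A holomorphic function on a disc which is small on the diameter. -/
theorem two_constants {G : ℂ → ℂ} {c : ℂ} {R ε M : ℝ} (hR : 0 < R) (hε : 0 < ε) (hεM : ε ≤ M)
    (hG : ∀ z, ‖z - c‖ ≤ R → DifferentiableAt ℂ G z) (hM : ∀ z, ‖z - c‖ ≤ R → ‖G z‖ ≤ M)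
    (hr : ∀ t : ℝ, |t| ≤ R → ‖G (c + t)‖ ≤ ε) {z : ℂ} (hz : ‖z - c‖ ≤ R / 4) :
    ‖G z‖ ≤ √(ε * M) := by
  rcases le_total 0 (z - c).im with h | h
  · exact half_disc hR hε hεM hG hM hr hz h
  · have key := half_disc (G := fun z => G (2 * c - z)) (c := c) (z := 2 * c - z) hR hε hεM
      (fun z hz => ?_) (fun z hz => ?_) (fun t ht => ?_) (by
        rw [show 2 * c - z - c = -(z - c) by ring, norm_neg]
        exact hz) (by
        rw [show 2 * c - z - c = -(z - c) by ring, neg_im]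
        linarith)
    · simpa using key
    · have h1 : ‖2 * c - z - c‖ ≤ R := by
        rw [show 2 * c - z - c = -(z - c) by ring, norm_neg]
        exact hz
      exact (hG _ h1).comp z (differentiableAt_id.const_sub (2 * c))
    · refine hM _ ?_
      rw [show 2 * c - z - c = -(z - c) by ring, norm_neg]
      exact hz
    · have h1 := hr (-t) (by rwa [abs_neg])
      have e : 2 * c - (c + t) = c + ((-t : ℝ) : ℂ) := by
        push_cast
        ring
      rw [e]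
      exact h1

/-- Three circles of radii `R / 4`, `R / 2` and `R`. -/
theorem three_circles {G : ℂ → ℂ} {c : ℂ} {R ε M : ℝ} (hR : 0 < R) (hε : 0 < ε) (hεM : ε ≤ M)
    (hG : ∀ z, ‖z - c‖ ≤ R → DifferentiableAt ℂ G z) (hM : ∀ z, ‖z - c‖ ≤ R → ‖G z‖ ≤ M)
    (hr : ∀ z, ‖z - c‖ ≤ R / 4 → ‖G z‖ ≤ ε) {z : ℂ} (hz : ‖z - c‖ ≤ R / 2) :
    ‖G z‖ ≤ √(ε * M) := by
  rcases le_total ‖z - c‖ (R / 4) with hz4 | hz4
  · refine (hr z hz4).trans (Real.le_sqrt_of_sq_le ?_)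
    nlinarith
  have hRc : (R : ℂ) ≠ 0 := ofReal_ne_zero.2 hR.ne'
  have hl4 : 0 < Real.log 4 := Real.log_pos (by norm_num)
  obtain ⟨u, hu⟩ : ∃ u, u = 4 * (z - c) / R := ⟨_, rfl⟩
  have hun : ‖u‖ = 4 * ‖z - c‖ / R := by
    rw [hu, norm_div, norm_mul, norm_real, Real.norm_of_nonneg hR.le]
    norm_num
  have hu1 : 1 ≤ ‖u‖ := by
    rw [hun, le_div_iff₀ hR]
    linarith
  have hu2 : ‖u‖ ≤ 2 := by
    rw [hun, div_le_iff₀ hR]
    linarith
  have hu0 : u ≠ 0 := norm_pos_iff.1 (by linarith)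
  have hzu : z = c + R / 4 * u := by
    rw [hu]
    field_simp
    ring
  obtain ⟨m, hm⟩ : ∃ m : ℂ → ℂ, m = fun ξ => c + R / 4 * exp ((Real.log 4 : ℝ) * ξ) := ⟨_, rfl⟩
  have hmn : ∀ ξ : ℂ, ‖m ξ - c‖ = R / 4 * Real.exp (Real.log 4 * ξ.re) := by
    intro ξ
    rw [hm]
    simp only [add_sub_cancel_left]
    rw [norm_mul, norm_exp, re_ofReal_mul, norm_div, norm_real, Real.norm_of_nonneg hR.le]
    norm_num
  have hmn' : ∀ ξ : ℂ, ξ.re ≤ 1 → ‖m ξ - c‖ ≤ R := by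
    intro ξ h1
    rw [hmn]
    have h2 : Real.exp (Real.log 4 * ξ.re) ≤ Real.exp (Real.log 4) :=
      Real.exp_le_exp.2 (by nlinarith)
    rw [Real.exp_log (by norm_num)] at h2
    nlinarith
  have hmd : ∀ ξ : ℂ, DifferentiableAt ℂ m ξ := by
    intro ξ
    rw [hm]
    have h3 : DifferentiableAt ℂ (fun ξ : ℂ => ((Real.log 4 : ℝ) : ℂ) * ξ) ξ :=
      differentiableAt_id.const_mul _
    exact (h3.cexp.const_mul (R / 4 : ℂ)).const_add c
  have hfd : ∀ ξ : ℂ, ξ.re ≤ 1 → DifferentiableAt ℂ (G ∘ m) ξ := fun ξ h1 =>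
    (hG _ (hmn' ξ h1)).comp ξ (hmd ξ)
  have hcl : closure (HadamardThreeLines.verticalStrip 0 1) ⊆ {ξ : ℂ | 0 ≤ ξ.re ∧ ξ.re ≤ 1} := by
    refine closure_minimal (fun ξ hξ => ⟨hξ.1.le, hξ.2.le⟩) ?_
    exact (isClosed_le continuous_const continuous_re).inter
      (isClosed_le continuous_re continuous_const)
  have hdc : DiffContOnCl ℂ (G ∘ m) (HadamardThreeLines.verticalStrip 0 1) :=
    ⟨fun ξ hξ => (hfd ξ hξ.2.le).differentiableWithinAt,
      fun ξ hξ => (hfd ξ (hcl hξ).2).continuousAt.continuousWithinAt⟩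
  obtain ⟨ξ, hξ⟩ : ∃ ξ : ℂ, ξ = log u / (Real.log 4 : ℝ) := ⟨_, rfl⟩
  have hξr : ξ.re = Real.log ‖u‖ / Real.log 4 := by rw [hξ, div_ofReal_re, log_re]
  have hξ0 : 0 ≤ ξ.re := by
    rw [hξr]
    exact div_nonneg (Real.log_nonneg hu1) hl4.le
  have hξ1 : ξ.re ≤ 1 / 2 := by
    rw [hξr, div_le_iff₀ hl4]
    have h1 : Real.log ‖u‖ ≤ Real.log 2 := Real.log_le_log (by linarith) hu2
    have h2 : Real.log 4 = 2 * Real.log 2 := by
      rw [show (4 : ℝ) = 2 ^ 2 by norm_num, Real.log_pow]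
      norm_num
    linarith
  have hmξ : m ξ = z := by
    rw [hm, hzu]
    simp only
    have e1 : ((Real.log 4 : ℝ) : ℂ) * ξ = log u := by
      rw [hξ]
      have : ((Real.log 4 : ℝ) : ℂ) ≠ 0 := ofReal_ne_zero.2 hl4.ne'
      field_simp
    rw [e1, exp_log hu0]
  have h1 := HadamardThreeLines.norm_le_interp_of_mem_verticalClosedStrip₀₁' (G ∘ m) (z := ξ)
    (a := ε) (b := M) ⟨hξ0, by linarith⟩ hdc ⟨M, by
      rintro _ ⟨ξ, hξ, rfl⟩
      exact hM _ (hmn' ξ hξ.2)⟩ (fun ξ hξ => ?_) (fun ξ hξ => ?_)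
  · have h2 : (G ∘ m) ξ = G z := by rw [Function.comp, hmξ]
    rw [h2] at h1
    exact h1.trans (interp_le hε hεM hξ1)
  · have hξ' : ξ.re = 0 := hξ
    refine hr _ ?_
    rw [hmn, hξ', mul_zero, Real.exp_zero, mul_one]
  · have hξ' : ξ.re = 1 := hξ
    exact hM _ (hmn' ξ (le_of_eq hξ'))

/-- Propagation of smallness along the real axis. -/
theorem chain {ρ w0 W M L : ℝ} {H : ℂ → ℂ} (hρ : 0 < ρ) (hρ1 : ρ ≤ 1) (hw0 : 0 < w0) (hM : 0 < M)
    (hL : 0 ≤ L)
    (hd : ∀ w : ℝ, w0 ≤ w → w ≤ W → ∀ z : ℂ, ‖z - w‖ ≤ 4 * (ρ * w) →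
      DifferentiableAt ℂ H z ∧ ‖H z‖ ≤ M)
    (h0 : ∀ z : ℂ, ‖z - w0‖ ≤ ρ * w0 → ‖H z‖ ≤ M * Real.exp (-L)) :
    ∀ (n : ℕ) (w : ℝ), w0 ≤ w → w ≤ W → w ≤ w0 * (1 + ρ / 2) ^ n → ∀ z : ℂ, ‖z - w‖ ≤ ρ * w →
      ‖H z‖ ≤ M * Real.exp (-(L / 2 ^ n)) := by
  intro n
  induction n with
  | zero =>
    intro w h1 h2 h3 z hz
    rw [pow_zero, mul_one] at h3
    obtain rfl : w = w0 := le_antisymm h3 h1
    simpa using h0 z hz
  | succ n ih =>
    intro w h1 h2 h3 z hz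
    obtain ⟨v, hv⟩ : ∃ v, v = max w0 (w / (1 + ρ / 2)) := ⟨_, rfl⟩
    have hw : 0 < w := hw0.trans_le h1
    have hv0 : w0 ≤ v := by rw [hv]; exact le_max_left _ _
    have hvw : v ≤ w := by
      rw [hv]
      refine max_le h1 ?_
      rw [div_le_iff₀ (by positivity)]
      nlinarith
    have hwv : w ≤ v * (1 + ρ / 2) := by
      rw [← div_le_iff₀ (by positivity), hv]
      exact le_max_right _ _
    have hvn : v ≤ w0 * (1 + ρ / 2) ^ n := by
      rw [hv]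
      refine max_le ?_ ?_
      · have : 1 ≤ (1 + ρ / 2) ^ n := one_le_pow₀ (by linarith)
        nlinarith
      · rw [div_le_iff₀ (by positivity)]
        calc w ≤ w0 * (1 + ρ / 2) ^ (n + 1) := h3
          _ = _ := by ring
    have hv1 : 0 < v := hw0.trans_le hv0
    have hzv : ‖z - v‖ ≤ 4 * (ρ * v) / 2 := by
      have e : z - v = (z - w) + ((w - v : ℝ) : ℂ) := by push_cast; ring
      have h4 : ‖((w - v : ℝ) : ℂ)‖ = w - v := by
        rw [norm_real, Real.norm_of_nonneg (by linarith)]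
      have h5 : ‖z - v‖ ≤ ρ * w + (w - v) := by
        rw [e]
        exact (norm_add_le _ _).trans (by rw [h4]; linarith)
      refine h5.trans ?_
      have h6 : ρ * w ≤ ρ * (v * (1 + ρ / 2)) := mul_le_mul_of_nonneg_left hwv hρ.le
      nlinarith [mul_pos hρ hv1]
    have h7 := three_circles (G := H) (c := v) (R := 4 * (ρ * v)) (ε := M * Real.exp (-(L / 2 ^ n)))
      (M := M) (by positivity) (by positivity)
      (by
        have : Real.exp (-(L / 2 ^ n)) ≤ 1 := Real.exp_le_one_iff.2 (by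
          have : 0 ≤ L / 2 ^ n := by positivity
          linarith)
        nlinarith) (fun z hz => (hd v hv0 (hvw.trans h2) z hz).1)
      (fun z hz => (hd v hv0 (hvw.trans h2) z hz).2)
      (fun z hz => ih v hv0 (hvw.trans h2) hvn z (by linarith)) hzv
    refine h7.trans (le_of_eq ?_)
    have h8 : M * Real.exp (-(L / 2 ^ n)) * M = (M * Real.exp (-(L / 2 ^ (n + 1)))) ^ 2 := by
      have h9 : Real.exp (-(L / 2 ^ n)) = Real.exp (-(L / 2 ^ (n + 1))) ^ 2 := by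
        rw [← Real.exp_nat_mul]
        congr 1
        push_cast
        rw [pow_succ]
        field_simp
      rw [h9]
      ring
    rw [h8, Real.sqrt_sq (by positivity)]

end Pool.Agent.IsoA
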